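import Mathlib

set_option autoImplicit false

/-!
A criterion for the abelianization of the kernel of a homomorphism to be torsion-free.
-/

namespace Pool.Agent.Helper867.PF

section Act

variable (Γ I : Type) [Group Γ] [MulAction Γ I]

/-- the permutation action on integer valued functions -/
def permAct : Γ →* MulAut (I → Multiplicative ℤ) where
  toFun γ :=
    { toFun := fun F i => F (γ⁻¹ • i)
      invFun := fun F i => F (γ • i)
      left_inv := fun F => by funext i; simp
      right_inv := fun F => by funext i; simp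
      map_mul' := fun F G => rfl }
  map_one' := by ext F i; simp
  map_mul' a b := by ext F i; simp [MulAut.mul_apply, mul_smul]

theorem permAct_apply (γ : Γ) (F : I → Multiplicative ℤ) (i : I) :
    permAct Γ I γ F i = F (γ⁻¹ • i) := rfl

/-- the extension -/
abbrev Ext : Type := (I → Multiplicative ℤ) ⋊[permAct Γ I] Γ

end Act

section Frame

variable {G Γ I : Type} [Group G] [Group Γ] [MulAction Γ I] [DecidableEq I]
variable (π : G →* Γ)

/-- the class of a conjugate in the abelianization of the kernel -/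
def cls (g x : G) (hx : x ∈ π.ker) : Abelianization π.ker :=
  Abelianization.of ⟨g * x * g⁻¹, (MonoidHom.normal_ker π).conj_mem x hx g⟩

theorem cls_ker (g n x : G) (hx : x ∈ π.ker) (hn : n ∈ π.ker) :
    cls π (g * n) x hx = cls π g x hx := by
  have hN := MonoidHom.normal_ker π
  have e : (⟨(g * n) * x * (g * n)⁻¹, hN.conj_mem x hx (g * n)⟩ : π.ker) =
      (⟨g * n * g⁻¹, hN.conj_mem n hn g⟩ : π.ker) *
      (⟨g * x * g⁻¹, hN.conj_mem x hx g⟩ : π.ker) *
      (⟨g * n * g⁻¹, hN.conj_mem n hn g⟩ : π.ker)⁻¹ := by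
    apply Subtype.ext
    simp only [Subgroup.coe_mul, Subgroup.coe_inv]
    group
  unfold cls
  rw [e, map_mul, map_mul, map_inv, mul_comm (Abelianization.of _), mul_assoc, mul_inv_cancel,
    mul_one]

theorem cls_congr (g h x : G) (hx : x ∈ π.ker) (hgh : π g = π h) :
    cls π g x hx = cls π h x hx := by
  have : g = h * (h⁻¹ * g) := by group
  rw [this]
  apply cls_ker
  rw [MonoidHom.mem_ker, map_mul, map_inv, hgh, inv_mul_cancel]

variable (Ψ : G →* Ext Γ I) (hΨ : ∀ g, (Ψ g).right = π g)
include hΨ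

theorem Psi_ker (n : G) (hn : n ∈ π.ker) : Ψ n = SemidirectProduct.inl (Ψ n).left := by
  have : (Ψ n).right = 1 := by rw [hΨ]; exact hn
  conv_lhs => rw [← SemidirectProduct.inl_left_mul_inr_right (Ψ n)]
  rw [this, map_one, mul_one]

theorem Psi_conj (h x : G) (hx : x ∈ π.ker) (i : I) :
    (Ψ (h * x * h⁻¹)).left i = (Ψ x).left ((π h)⁻¹ • i) := by
  have e : Ψ (h * x * h⁻¹) = Ψ h * SemidirectProduct.inl (Ψ x).left * (Ψ h)⁻¹ := by
    rw [map_mul, map_mul, map_inv]
    rw [← Psi_ker π Ψ hΨ x hx]
  rw [e]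
  simp only [SemidirectProduct.mul_left, SemidirectProduct.mul_right, SemidirectProduct.inv_left,
    SemidirectProduct.left_inl, SemidirectProduct.right_inl, mul_one]
  rw [Pi.mul_apply, Pi.mul_apply, permAct_apply, hΨ, permAct_apply, permAct_apply]
  simp only [Pi.inv_apply, inv_inv]
  rw [smul_smul, mul_inv_cancel, one_smul, mul_comm, ← mul_assoc, inv_mul_cancel, one_mul]

/-- the homomorphism on the kernel -/
def psiKer : π.ker →* (I → Multiplicative ℤ) where
  toFun n := (Ψ n.1).left
  map_one' := by simp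
  map_mul' a b := by
    show (Ψ (a.1 * b.1)).left = _
    rw [map_mul, Psi_ker π Ψ hΨ a.1 a.2, Psi_ker π Ψ hΨ b.1 b.2, ← map_mul]
    simp

variable (e : I → Abelianization π.ker) (m : I → ℤ) (hm : ∀ i, m i ≠ 0)
variable (J : Type) (gen : J → G) (hker : ∀ j, gen j ∈ π.ker) (idx : J → I)
variable (hgen : ∀ j i, (Ψ (gen j)).left i = if i = idx j then Multiplicative.ofAdd (m i) else 1)
variable (hcls : ∀ (j : J) (g : G), cls π g (gen j) (hker j) = e (π g • idx j))
variable (hmi : ∀ (j : J) (γ : Γ), m (γ • idx j) = m (idx j))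
variable (hN : π.ker ≤ Subgroup.normalClosure (Set.range gen))

include hgen hcls hmi hN in
theorem exists_coord (n : π.ker) :
    ∃ y : I →₀ ℤ, Abelianization.of n = y.prod (fun i k => e i ^ k) ∧
      ∀ i, (Ψ n.1).left i = Multiplicative.ofAdd (m i * y i) := by
  obtain ⟨n, hn⟩ := n
  have hn' := hN hn
  rw [Subgroup.normalClosure] at hn'
  have hle : Subgroup.closure (Group.conjugatesOfSet (Set.range gen)) ≤ π.ker := by
    rw [Subgroup.closure_le]
    intro x hx
    rw [Group.mem_conjugatesOfSet_iff] at hx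
    obtain ⟨_, ⟨j, rfl⟩, hc⟩ := hx
    rw [isConj_iff] at hc
    obtain ⟨c, rfl⟩ := hc
    exact (MonoidHom.normal_ker π).conj_mem _ (hker j) c
  have key : ∀ (g : G) (hg : g ∈ Subgroup.closure (Group.conjugatesOfSet (Set.range gen))),
      ∃ y : I →₀ ℤ, Abelianization.of (⟨g, hle hg⟩ : π.ker) = y.prod (fun i k => e i ^ k) ∧
      ∀ i, (Ψ g).left i = Multiplicative.ofAdd (m i * y i) := by
    intro g hg
    induction hg using Subgroup.closure_induction with
    | mem x hx =>
      rw [Group.mem_conjugatesOfSet_iff] at hx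
      obtain ⟨_, ⟨j, rfl⟩, hc⟩ := hx
      rw [isConj_iff] at hc
      obtain ⟨c, rfl⟩ := hc
      refine ⟨Finsupp.single (π c • idx j) 1, ?_, ?_⟩
      · rw [Finsupp.prod_single_index (by simp), zpow_one, ← hcls j c]
        rfl
      · intro i
        rw [Psi_conj π Ψ hΨ c _ (hker j), hgen]
        by_cases h : i = π c • idx j
        · subst h
          rw [inv_smul_smul, if_pos rfl, Finsupp.single_eq_same, mul_one, hmi]
        · rw [if_neg, Finsupp.single_eq_of_ne h, mul_zero]
          · rfl
          · intro h'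
            apply h
            rw [← h', smul_inv_smul]
    | one =>
      refine ⟨0, ?_, ?_⟩
      · rw [Finsupp.prod_zero_index]
        exact map_one _
      · intro i; simp
    | mul x y hx hy ihx ihy =>
      obtain ⟨a, ha1, ha2⟩ := ihx
      obtain ⟨b, hb1, hb2⟩ := ihy
      refine ⟨a + b, ?_, ?_⟩
      · rw [Finsupp.prod_add_index' (by intro i; simp) (by intro i k l; exact zpow_add _ _ _),
          ← ha1, ← hb1, ← map_mul]
        rfl
      · intro i
        rw [map_mul, Psi_ker π Ψ hΨ x (hle hx), Psi_ker π Ψ hΨ y (hle hy), ← map_mul]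
        rw [SemidirectProduct.left_inl, Pi.mul_apply, ha2, hb2, Finsupp.add_apply, mul_add,
          ofAdd_add]
    | inv x hx ihx =>
      obtain ⟨a, ha1, ha2⟩ := ihx
      refine ⟨-a, ?_, ?_⟩
      · have : (-a).prod (fun i k => e i ^ k) = (a.prod (fun i k => e i ^ k))⁻¹ := by
          rw [eq_inv_iff_mul_eq_one, ← Finsupp.prod_add_index' (by intro i; simp)
            (by intro i k l; exact zpow_add _ _ _), neg_add_cancel, Finsupp.prod_zero_index]
        rw [this, ← ha1, ← map_inv]
        rfl
      · intro i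
        rw [map_inv, Psi_ker π Ψ hΨ x (hle hx), ← map_inv]
        rw [SemidirectProduct.left_inl, Pi.inv_apply, ha2, Finsupp.neg_apply, mul_neg, ofAdd_neg]
  exact key n hn'

include hm hgen hcls hmi hN in
/-- the criterion -/
theorem ab_torsionFree (x : Abelianization π.ker) (hx : IsOfFinOrder x) : x = 1 := by
  obtain ⟨n, rfl⟩ : ∃ n, Abelianization.of n = x := by
    obtain ⟨n, hn⟩ := QuotientGroup.mk_surjective x
    exact ⟨n, hn⟩
  rw [isOfFinOrder_iff_pow_eq_one] at hx
  obtain ⟨k, hk, hxk⟩ := hx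
  obtain ⟨y, hy1, hy2⟩ := exists_coord π Ψ hΨ e m J gen hker idx hgen hcls hmi hN n
  have h1 : (Abelianization.lift (psiKer π Ψ hΨ)) (Abelianization.of n ^ k) = 1 := by
    rw [hxk, map_one]
  rw [map_pow, Abelianization.lift_apply_of] at h1
  have hy : y = 0 := by
    ext i
    have h2 := congrFun h1 i
    rw [Pi.pow_apply] at h2
    change (Ψ n.1).left i ^ k = 1 at h2
    rw [hy2] at h2
    have h3 := congrArg Multiplicative.toAdd h2
    simp only [toAdd_pow, toAdd_ofAdd, toAdd_one, smul_eq_mul, nsmul_eq_mul, mul_eq_zero] at h3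
    rcases h3 with h4 | h5 | h6
    · exfalso; omega
    · exact absurd h5 (hm i)
    · simpa using h6
  rw [hy1, hy, Finsupp.prod_zero_index]

end Frame

end Pool.Agent.Helper867.PF
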