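import Mathlib

set_option autoImplicit false

/-!
Free groups are residually finite 2-groups.
-/

namespace Pool.Agent.Helper867.PF

theorem syl_step {α : Type} (g : FreeGroup α) (a : α) (ε : ℤ) (hε : ε ≠ 0)
    (L : List (α × ℤ)) (h0 : ∀ p ∈ L, p.2 ≠ 0)
    (hc : L.IsChain (fun p q => p.1 ≠ q.1))
    (hg : g = (L.map (fun p => (FreeGroup.of p.1) ^ p.2)).prod) :
    ∃ L' : List (α × ℤ), (∀ p ∈ L', p.2 ≠ 0) ∧ L'.IsChain (fun p q => p.1 ≠ q.1) ∧
      (FreeGroup.of a) ^ ε * g = (L'.map (fun p => (FreeGroup.of p.1) ^ p.2)).prod := by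
  classical
  rcases L with _ | ⟨⟨a', m⟩, L1⟩
  · refine ⟨[(a, ε)], ?_, ?_, ?_⟩
    · intro p hp; simp at hp; rw [hp]; exact hε
    · simp
    · simp [hg]
  · by_cases ha : a' = a
    · subst ha
      by_cases hm : ε + m = 0
      · refine ⟨L1, ?_, ?_, ?_⟩
        · intro p hp; exact h0 p (List.mem_cons_of_mem _ hp)
        · exact hc.tail
        · rw [hg]; simp only [List.map_cons, List.prod_cons]
          rw [← mul_assoc, ← zpow_add, hm]; simp
      · refine ⟨(a', ε + m) :: L1, ?_, ?_, ?_⟩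
        · intro p hp
          rcases List.mem_cons.mp hp with h | h
          · rw [h]; exact hm
          · exact h0 p (List.mem_cons_of_mem _ h)
        · rcases L1 with _ | ⟨q, L2⟩
          · simp
          · rw [List.isChain_cons_cons] at hc ⊢
            exact hc
        · rw [hg]; simp only [List.map_cons, List.prod_cons]
          rw [← mul_assoc, ← zpow_add]
    · refine ⟨(a, ε) :: (a', m) :: L1, ?_, ?_, ?_⟩
      · intro p hp
        rcases List.mem_cons.mp hp with h | h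
        · rw [h]; exact hε
        · exact h0 p h
      · rw [List.isChain_cons_cons]
        exact ⟨fun h => ha h.symm, hc⟩
      · rw [hg]; simp only [List.map_cons, List.prod_cons]

theorem exists_syllables {α : Type} (g : FreeGroup α) :
    ∃ L : List (α × ℤ), (∀ p ∈ L, p.2 ≠ 0) ∧ L.IsChain (fun p q => p.1 ≠ q.1) ∧
      g = (L.map (fun p => (FreeGroup.of p.1) ^ p.2)).prod := by
  classical
  have key : ∀ w : List (α × Bool), ∃ L : List (α × ℤ), (∀ p ∈ L, p.2 ≠ 0) ∧
      L.IsChain (fun p q => p.1 ≠ q.1) ∧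
      FreeGroup.mk w = (L.map (fun p => (FreeGroup.of p.1) ^ p.2)).prod := by
    intro w
    induction w with
    | nil => exact ⟨[], by simp, by simp, by simp [FreeGroup.one_eq_mk]⟩
    | cons x w ih =>
      obtain ⟨L, h0, hc, hg⟩ := ih
      obtain ⟨a, c⟩ := x
      cases c with
      | true =>
        obtain ⟨L', h1, h2, h3⟩ := syl_step _ a 1 (by norm_num) L h0 hc hg
        refine ⟨L', h1, h2, ?_⟩
        rw [← h3, zpow_one, FreeGroup.of, FreeGroup.mul_mk]; rfl
      | false =>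
        obtain ⟨L', h1, h2, h3⟩ := syl_step _ a (-1) (by norm_num) L h0 hc hg
        refine ⟨L', h1, h2, ?_⟩
        rw [← h3, zpow_neg_one, FreeGroup.of, FreeGroup.inv_mk, FreeGroup.mul_mk]; rfl
  have := key g.toWord
  rwa [FreeGroup.mk_toWord] at this

section Rep

variable {α : Type} (L : List (α × ℤ))

/-- position `i` of the list carries the letter `a` -/
def hit (a : α) (i : ℕ) : Prop := ∃ m, L[i]? = some (a, m)

variable {L}

theorem hit_lt {a : α} {i : ℕ} (h : hit L a i) : i < L.length := by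
  obtain ⟨m, hm⟩ := h
  exact (List.getElem?_eq_some_iff.mp hm).1

theorem not_hit_succ (hc : L.IsChain (fun p q => p.1 ≠ q.1)) {a : α} {i : ℕ}
    (h1 : hit L a i) : ¬ hit L a (i + 1) := by
  rintro ⟨m', h2⟩
  obtain ⟨m, h1⟩ := h1
  rw [List.isChain_iff_getElem] at hc
  obtain ⟨hi1, hi1'⟩ := List.getElem?_eq_some_iff.mp h1
  obtain ⟨hi2, hi2'⟩ := List.getElem?_eq_some_iff.mp h2
  have := hc i hi2
  rw [hi1', hi2'] at this
  exact this rfl

variable (L)

open Classical in
/-- the nilpotent matrix attached to the letter `a` -/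
noncomputable def Nm (a : α) : Matrix (Fin (L.length + 1)) (Fin (L.length + 1)) ℤ :=
  fun i j => if hit L a i.1 ∧ j.1 = i.1 + 1 then 1 else 0

theorem Nm_mulVec_hit (a : α) (f : Fin (L.length + 1) → ℤ) (i : ℕ) (h : hit L a i)
    (h1 : i < L.length + 1) (h2 : i + 1 < L.length + 1) :
    (Nm L a).mulVec f ⟨i, h1⟩ = f ⟨i + 1, h2⟩ := by
  classical
  unfold Matrix.mulVec dotProduct Nm
  rw [Finset.sum_eq_single ⟨i + 1, h2⟩]
  · simp [h]
  · intro b _ hb
    have : b.1 ≠ i + 1 := fun h => hb (Fin.ext h)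
    simp [this]
  · simp

theorem Nm_mulVec_not (a : α) (f : Fin (L.length + 1) → ℤ) (i : Fin (L.length + 1))
    (h : ¬ hit L a i.1) : (Nm L a).mulVec f i = 0 := by
  classical
  unfold Matrix.mulVec dotProduct Nm
  simp [h]

variable {L}

theorem Nm_sq (hc : L.IsChain (fun p q => p.1 ≠ q.1)) (a : α) : Nm L a * Nm L a = 0 := by
  classical
  ext i j
  rw [Matrix.mul_apply]
  apply Finset.sum_eq_zero
  intro k _
  unfold Nm
  by_cases h1 : hit L a i.1 ∧ k.1 = i.1 + 1
  · have : ¬ (hit L a k.1 ∧ j.1 = k.1 + 1) := by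
      rintro ⟨h2, -⟩
      rw [h1.2] at h2
      exact not_hit_succ hc h1.1 h2
    simp [this]
  · simp [h1]

/-- the matrix attached to the letter `a` -/
noncomputable def Am (hc : L.IsChain (fun p q => p.1 ≠ q.1)) (a : α) :
    (Matrix (Fin (L.length + 1)) (Fin (L.length + 1)) ℤ)ˣ where
  val := 1 + (2 : ℤ) • Nm L a
  inv := 1 - (2 : ℤ) • Nm L a
  val_inv := by
    have := Nm_sq hc a
    rw [add_mul, mul_sub, mul_sub, smul_mul_smul_comm, this]; simp
  inv_val := by
    have := Nm_sq hc a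
    rw [sub_mul, mul_add, mul_add, smul_mul_smul_comm, this]; simp

theorem Am_zpow (hc : L.IsChain (fun p q => p.1 ≠ q.1)) (a : α) (m : ℤ) :
    ((Am hc a ^ m : (Matrix (Fin (L.length + 1)) (Fin (L.length + 1)) ℤ)ˣ) :
      Matrix (Fin (L.length + 1)) (Fin (L.length + 1)) ℤ) = 1 + (2 * m) • Nm L a := by
  have hsq := Nm_sq hc a
  induction m using Int.induction_on with
  | zero => simp
  | succ n ih =>
    rw [zpow_add_one, Units.val_mul, ih]
    show (1 + (2 * (n : ℤ)) • Nm L a) * (1 + (2 : ℤ) • Nm L a) = _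
    rw [add_mul, mul_add, mul_add, smul_mul_smul_comm, hsq]
    rw [smul_zero, add_zero, one_mul, one_mul, mul_one, mul_add, add_smul, mul_one]
    abel
  | pred n ih =>
    rw [zpow_sub_one, Units.val_mul, ih]
    show (1 + (2 * (-(n : ℤ))) • Nm L a) * (1 - (2 : ℤ) • Nm L a) = _
    rw [add_mul, mul_sub, mul_sub, smul_mul_smul_comm, hsq]
    rw [smul_zero, sub_zero, one_mul, one_mul, mul_one, mul_sub, sub_smul, mul_one]
    abel

/-- the unipotent representation -/
noncomputable def rep (hc : L.IsChain (fun p q => p.1 ≠ q.1)) :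
    FreeGroup α →* (Matrix (Fin (L.length + 1)) (Fin (L.length + 1)) ℤ)ˣ :=
  FreeGroup.lift (Am hc)

theorem rep_suffix (hc : L.IsChain (fun p q => p.1 ≠ q.1)) (L2 : List (α × ℤ)) :
    ∀ L1 : List (α × ℤ), L = L1 ++ L2 → ∀ v : Fin (L.length + 1) → ℤ,
      v = ((rep hc (L2.map (fun p => (FreeGroup.of p.1) ^ p.2)).prod :
        (Matrix (Fin (L.length + 1)) (Fin (L.length + 1)) ℤ)ˣ) :
          Matrix (Fin (L.length + 1)) (Fin (L.length + 1)) ℤ).mulVec
            (Pi.single (Fin.last L.length) 1) →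
      (∀ i : Fin (L.length + 1), i.1 < L1.length → v i = 0) ∧
      (∀ i : Fin (L.length + 1), i.1 = L1.length → v i = (L2.map (fun p => 2 * p.2)).prod) := by
  induction L2 with
  | nil =>
    intro L1 hL v hv
    simp only [List.append_nil] at hL
    simp only [List.map_nil, List.prod_nil, map_one, Units.val_one, Matrix.one_mulVec] at hv
    refine ⟨?_, ?_⟩
    · intro i hi
      rw [hv, Pi.single_eq_of_ne]
      intro h
      rw [h] at hi
      rw [← hL] at hi
      simp at hi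
    · intro i hi
      have : i = Fin.last L.length := by
        apply Fin.ext
        rw [hi, ← hL]; simp
      rw [hv, this]; simp
  | cons p L3 ih =>
    intro L1 hL v hv
    obtain ⟨a, m⟩ := p
    obtain ⟨h1, h2⟩ := ih (L1 ++ [(a, m)]) (by simpa using hL) _ rfl
    set w : Fin (L.length + 1) → ℤ := ((rep hc (L3.map (fun p => (FreeGroup.of p.1) ^ p.2)).prod :
        (Matrix (Fin (L.length + 1)) (Fin (L.length + 1)) ℤ)ˣ) :
          Matrix (Fin (L.length + 1)) (Fin (L.length + 1)) ℤ).mulVec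
            (Pi.single (Fin.last L.length) 1) with hw
    have hv' : v = (1 + (2 * m) • Nm L a).mulVec w := by
      rw [hv, List.map_cons, List.prod_cons, map_mul, Units.val_mul, ← Matrix.mulVec_mulVec, ← hw]
      congr 1
      rw [map_zpow]
      unfold rep
      rw [FreeGroup.lift_apply_of, Am_zpow]
    have hv2 : ∀ i, v i = w i + (2 * m) * (Nm L a).mulVec w i := by
      intro i
      rw [hv', Matrix.add_mulVec, Matrix.one_mulVec, Matrix.smul_mulVec]
      simp
    simp only [List.length_append, List.length_cons, List.length_nil, zero_add] at h1 h2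
    have hlen : L.length = L1.length + (L3.length + 1) := by rw [hL]; simp
    refine ⟨?_, ?_⟩
    · intro i hi
      rw [hv2, h1 i (by omega)]
      by_cases hh : hit L a i.1
      · have := Nm_mulVec_hit L a w i.1 hh i.2 (by omega)
        rw [show (⟨i.1, i.2⟩ : Fin (L.length + 1)) = i from rfl] at this
        rw [this, h1 _ (by show i.1 + 1 < _; omega)]; simp
      · rw [Nm_mulVec_not _ _ _ _ hh]; simp
    · intro i hi
      rw [hv2, h1 i (by omega)]
      have hh : hit L a i.1 := ⟨m, by rw [hi]; nth_rewrite 1 [hL]; simp⟩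
      have := Nm_mulVec_hit L a w i.1 hh i.2 (by omega)
      rw [show (⟨i.1, i.2⟩ : Fin (L.length + 1)) = i from rfl] at this
      rw [this, h2 _ (by show i.1 + 1 = _; omega)]
      simp

theorem rep_ne_one (hc : L.IsChain (fun p q => p.1 ≠ q.1)) (h0 : ∀ p ∈ L, p.2 ≠ 0)
    (hne : L ≠ []) :
    rep hc (L.map (fun p => (FreeGroup.of p.1) ^ p.2)).prod ≠ 1 := by
  intro h
  obtain ⟨-, h2⟩ := rep_suffix hc L [] (by simp) _ rfl
  have h3 := h2 ⟨0, by omega⟩ rfl
  rw [h] at h3
  simp only [Units.val_one, Matrix.one_mulVec] at h3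
  have hlen : L.length ≠ 0 := by
    intro h; exact hne (List.length_eq_zero_iff.mp h)
  rw [Pi.single_eq_of_ne] at h3
  · have h5 : (L.map (fun p => 2 * p.2)).prod ≠ 0 := by
      rw [Ne, List.prod_eq_zero_iff]
      intro h
      rw [List.mem_map] at h
      obtain ⟨p, hp, hp0⟩ := h
      have := h0 p hp
      omega
    exact h5 h3.symm
  · intro h
    have := congrArg Fin.val h
    simp at this
    omega

end Rep

section TwoGroup

variable (n e : ℕ)

/-- the congruence subgroup modulo two of the invertible matrices over the integers modulo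
a power of two -/
def Cong : Subgroup (Matrix (Fin n) (Fin n) (ZMod (2 ^ e)))ˣ where
  carrier := {U | ∃ B : Matrix (Fin n) (Fin n) (ZMod (2 ^ e)),
    (U : Matrix (Fin n) (Fin n) (ZMod (2 ^ e))) = 1 + 2 * B}
  one_mem' := ⟨0, by simp⟩
  mul_mem' := by
    rintro U V ⟨B, hB⟩ ⟨C, hC⟩
    refine ⟨B + C + 2 * (B * C), ?_⟩
    rw [Units.val_mul, hB, hC]
    have : (2 : Matrix (Fin n) (Fin n) (ZMod (2 ^ e))) * B = B * 2 := by
      rw [mul_two, two_mul]
    calc (1 + 2 * B) * (1 + 2 * C) = 1 + 2 * B + 2 * C + 2 * (B * 2) * C := by noncomm_ring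
      _ = 1 + 2 * B + 2 * C + 2 * (2 * B) * C := by rw [this]
      _ = _ := by noncomm_ring
  inv_mem' := by
    rintro U ⟨B, hB⟩
    refine ⟨-(B * ((U⁻¹ : (Matrix (Fin n) (Fin n) (ZMod (2 ^ e)))ˣ) :
      Matrix (Fin n) (Fin n) (ZMod (2 ^ e)))), ?_⟩
    have h1 : (U : Matrix (Fin n) (Fin n) (ZMod (2 ^ e))) *
      ((U⁻¹ : (Matrix (Fin n) (Fin n) (ZMod (2 ^ e)))ˣ) :
      Matrix (Fin n) (Fin n) (ZMod (2 ^ e))) = 1 := Units.mul_inv U
    rw [hB, add_mul, one_mul] at h1
    rw [mul_neg, ← mul_assoc]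
    exact eq_sub_of_add_eq h1 |>.trans (sub_eq_add_neg _ _)

theorem two_pow_eq_zero : (2 : Matrix (Fin n) (Fin n) (ZMod (2 ^ e))) ^ e = 0 := by
  have h : ((2 ^ e : ℕ) : ZMod (2 ^ e)) = 0 := ZMod.natCast_self _
  have h2 : (2 : Matrix (Fin n) (Fin n) (ZMod (2 ^ e))) ^ e =
      ((2 ^ e : ℕ) : Matrix (Fin n) (Fin n) (ZMod (2 ^ e))) := by push_cast; rfl
  rw [h2]
  have h3 : ((2 ^ e : ℕ) : Matrix (Fin n) (Fin n) (ZMod (2 ^ e))) =
      algebraMap (ZMod (2 ^ e)) _ ((2 ^ e : ℕ) : ZMod (2 ^ e)) := by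
    rw [map_natCast]
  rw [h3, h, map_zero]

theorem cong_isPGroup : IsPGroup 2 (Cong n e) := by
  rintro ⟨U, B, hB⟩
  refine ⟨e, ?_⟩
  apply Subtype.ext
  apply Units.ext
  show (((U ^ 2 ^ e : (Matrix (Fin n) (Fin n) (ZMod (2 ^ e)))ˣ)) :
    Matrix (Fin n) (Fin n) (ZMod (2 ^ e))) = 1
  have key : ∀ k : ℕ, ∃ C : Matrix (Fin n) (Fin n) (ZMod (2 ^ e)),
      (U : Matrix (Fin n) (Fin n) (ZMod (2 ^ e))) ^ 2 ^ k = 1 + 2 ^ (k + 1) * C := by
    intro k
    induction k with
    | zero => exact ⟨B, by simpa using hB⟩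
    | succ k ih =>
      obtain ⟨C, hC⟩ := ih
      refine ⟨C + 2 ^ k * (C * C), ?_⟩
      have hcomm : C * (2 : Matrix (Fin n) (Fin n) (ZMod (2 ^ e))) ^ (k + 1) =
          2 ^ (k + 1) * C := by
        have : Commute C (2 : Matrix (Fin n) (Fin n) (ZMod (2 ^ e))) := by
          show C * 2 = 2 * C
          rw [mul_two, two_mul]
        exact (this.pow_right (k + 1)).eq
      rw [pow_succ, pow_mul, hC, sq]
      calc (1 + 2 ^ (k + 1) * C) * (1 + 2 ^ (k + 1) * C)
          = 1 + 2 ^ (k + 1) * C + 2 ^ (k + 1) * C + 2 ^ (k + 1) * (C * 2 ^ (k + 1)) * C := by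
            noncomm_ring
        _ = 1 + 2 ^ (k + 1) * C + 2 ^ (k + 1) * C + 2 ^ (k + 1) * (2 ^ (k + 1) * C) * C := by
            rw [hcomm]
        _ = 1 + 2 ^ (k + 1 + 1) * (C + 2 ^ k * (C * C)) := by
            rw [pow_succ (2 : Matrix (Fin n) (Fin n) (ZMod (2 ^ e))) (k + 1)]
            rw [pow_succ (2 : Matrix (Fin n) (Fin n) (ZMod (2 ^ e))) k]
            have hc2 : (2 : Matrix (Fin n) (Fin n) (ZMod (2 ^ e))) * 2 ^ k = 2 ^ k * 2 :=
              (Commute.refl _).pow_right k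
            simp only [mul_add, mul_assoc, mul_two, two_mul, add_mul, mul_one]
            abel
  obtain ⟨C, hC⟩ := key e
  rw [Units.val_pow_eq_pow_val, hC, pow_succ, two_pow_eq_zero]
  simp

end TwoGroup

/-- Free groups are residually finite 2-groups. -/
theorem free_res {α : Type} (w : FreeGroup α) (hw : w ≠ 1) :
    ∃ (Q : Type) (_ : Group Q) (_ : Finite Q) (f : FreeGroup α →* Q),
      IsPGroup 2 Q ∧ f w ≠ 1 := by
  classical
  obtain ⟨L, h0, hc, hL⟩ := exists_syllables w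
  have hne : L ≠ [] := by
    rintro rfl
    exact hw (by simpa using hL)
  have h1 := rep_ne_one hc h0 hne
  rw [← hL] at h1
  have h2 : ((rep hc w : (Matrix (Fin (L.length + 1)) (Fin (L.length + 1)) ℤ)ˣ) :
      Matrix (Fin (L.length + 1)) (Fin (L.length + 1)) ℤ) ≠ 1 := by
    intro h; exact h1 (Units.ext h)
  have h3 : ∃ i j, ((rep hc w : (Matrix (Fin (L.length + 1)) (Fin (L.length + 1)) ℤ)ˣ) :
      Matrix (Fin (L.length + 1)) (Fin (L.length + 1)) ℤ) i j ≠
      (1 : Matrix (Fin (L.length + 1)) (Fin (L.length + 1)) ℤ) i j := by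
    by_contra hcon
    push Not at hcon
    exact h2 (by ext i j; exact hcon i j)
  obtain ⟨i, j, hij⟩ := h3
  set c : ℤ := ((rep hc w : (Matrix (Fin (L.length + 1)) (Fin (L.length + 1)) ℤ)ˣ) :
      Matrix (Fin (L.length + 1)) (Fin (L.length + 1)) ℤ) i j -
      (1 : Matrix (Fin (L.length + 1)) (Fin (L.length + 1)) ℤ) i j with hcdef
  have hc0 : c ≠ 0 := sub_ne_zero.mpr hij
  set e : ℕ := c.natAbs with he
  have hnd : ¬ ((2 ^ e : ℕ) : ℤ) ∣ c := by
    intro hd
    have h5 := Int.natAbs_dvd_natAbs.mpr hd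
    rw [Int.natAbs_natCast] at h5
    have h6 := Nat.le_of_dvd (Int.natAbs_pos.mpr hc0) h5
    have h7 : e < 2 ^ e := Nat.lt_two_pow_self
    omega
  haveI : NeZero (2 ^ e) := ⟨by positivity⟩
  let red : Matrix (Fin (L.length + 1)) (Fin (L.length + 1)) ℤ →+*
      Matrix (Fin (L.length + 1)) (Fin (L.length + 1)) (ZMod (2 ^ e)) :=
    (Int.castRingHom (ZMod (2 ^ e))).mapMatrix
  let f0 : FreeGroup α →* (Matrix (Fin (L.length + 1)) (Fin (L.length + 1)) (ZMod (2 ^ e)))ˣ :=
    (Units.map (red : Matrix (Fin (L.length + 1)) (Fin (L.length + 1)) ℤ →*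
      Matrix (Fin (L.length + 1)) (Fin (L.length + 1)) (ZMod (2 ^ e)))).comp (rep hc)
  have hmem : ∀ x, f0 x ∈ Cong (L.length + 1) e := by
    intro x
    have : f0.range ≤ Cong (L.length + 1) e := by
      rw [MonoidHom.range_eq_map, ← FreeGroup.closure_range_of, MonoidHom.map_closure,
        Subgroup.closure_le]
      rintro _ ⟨_, ⟨a, rfl⟩, rfl⟩
      refine ⟨red (Nm L a), ?_⟩
      show red ((rep hc (FreeGroup.of a) : (Matrix _ _ ℤ)ˣ) : Matrix _ _ ℤ) = _
      unfold rep
      rw [FreeGroup.lift_apply_of]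
      show red (1 + (2 : ℤ) • Nm L a) = _
      rw [map_add, map_one, map_zsmul, two_zsmul, two_mul]
    exact this ⟨x, rfl⟩
  refine ⟨Cong (L.length + 1) e, inferInstance, inferInstance, f0.codRestrict _ hmem,
    cong_isPGroup _ _, ?_⟩
  intro h
  have h4 : f0 w = 1 := congrArg Subtype.val h
  have h5 : red ((rep hc w : (Matrix _ _ ℤ)ˣ) : Matrix _ _ ℤ) = 1 := congrArg Units.val h4
  have h6 := congrFun (congrFun h5 i) j
  apply hnd
  rw [← ZMod.intCast_zmod_eq_zero_iff_dvd, hcdef]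
  push_cast
  have h7 : red ((rep hc w : (Matrix _ _ ℤ)ˣ) : Matrix _ _ ℤ) i j =
    (((rep hc w : (Matrix _ _ ℤ)ˣ) : Matrix _ _ ℤ) i j : ZMod (2 ^ e)) := rfl
  rw [← h7, h6]
  by_cases hd : i = j
  · subst hd; simp
  · simp [Matrix.one_apply, hd]

end Pool.Agent.Helper867.PF
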