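import Mathlib
import Pool.Agent.Helper867.PF.Grp
import Pool.Agent.Helper867.PF.Frame

set_option autoImplicit false

/-!
The kernel `N` of a homomorphism from `P` onto the trefoil group: `N` has torsion-free
abelianization, `P / N` is torsion-free, and roots are not unique in `P / [N, N]`.
-/

namespace Pool.Agent.Helper867.PF.Roots

/-- letters -/
def fu : FreeGroup Bool := FreeGroup.of false
/-- letters -/
def fv : FreeGroup Bool := FreeGroup.of true

/-- images of the letters -/
def phiFun (b : Bool) : FreeGroup Bool := cond b (fu⁻¹ * fv) fv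
/-- images of the letters -/
def phiInvFun (b : Bool) : FreeGroup Bool := cond b fu (fu * fv⁻¹)

/-- the monodromy -/
def phi : MulAut (FreeGroup Bool) :=
  MonoidHom.toMulEquiv (FreeGroup.lift phiFun) (FreeGroup.lift phiInvFun)
    (by
      ext b
      cases b
      · simp [phiFun, phiInvFun, fu, fv, FreeGroup.lift_apply_of]
      · simp [phiFun, phiInvFun, fu, fv, FreeGroup.lift_apply_of])
    (by
      ext b
      cases b
      · simp [phiFun, phiInvFun, fu, fv, FreeGroup.lift_apply_of]
      · simp [phiFun, phiInvFun, fu, fv, FreeGroup.lift_apply_of])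

theorem phi_fu : phi fu = fv := by
  show FreeGroup.lift phiFun (FreeGroup.of false) = _
  rw [FreeGroup.lift_apply_of]; rfl

theorem phi_fv : phi fv = fu⁻¹ * fv := by
  show FreeGroup.lift phiFun (FreeGroup.of true) = _
  rw [FreeGroup.lift_apply_of]; rfl

/-- the trefoil group -/
abbrev Tf : Type := FreeGroup Bool ⋊[zpowersHom (MulAut (FreeGroup Bool)) phi] Multiplicative ℤ

/-- generator -/
def zT : Tf := SemidirectProduct.inr (Multiplicative.ofAdd 1)
/-- generator -/
def uT : Tf := SemidirectProduct.inl fu

theorem conjT (k : FreeGroup Bool) : zT * SemidirectProduct.inl k * zT⁻¹ =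
    SemidirectProduct.inl (phi k) := by
  have h := SemidirectProduct.inl_aut
    (φ := zpowersHom (MulAut (FreeGroup Bool)) phi) (Multiplicative.ofAdd 1) k
  rw [map_inv] at h
  have h2 : zpowersHom (MulAut (FreeGroup Bool)) phi (Multiplicative.ofAdd 1) = phi := by
    simp
  rw [h2] at h
  exact h.symm

theorem relT : rel zT uT = 1 := by
  have h1 : zT * uT * zT⁻¹ = SemidirectProduct.inl fv := by
    rw [uT, conjT, phi_fu]
  have h2 : zT * (zT * uT * zT⁻¹) * zT⁻¹ = SemidirectProduct.inl (fu⁻¹ * fv) := by
    rw [h1, conjT, phi_fv]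
  have h3 : rel zT uT = uT * (zT * (zT * uT * zT⁻¹) * zT⁻¹) * (zT * uT * zT⁻¹)⁻¹ := by
    unfold rel; group
  rw [h3, h2, h1, uT, ← map_inv, ← map_mul, ← map_mul]
  simp

theorem Tf_torsionFree (x : Tf) (hx : IsOfFinOrder x) : x = 1 := by
  rw [isOfFinOrder_iff_pow_eq_one] at hx
  obtain ⟨n, hn, hxn⟩ := hx
  have h1 : x.right = 1 := by
    have h2 := congrArg (SemidirectProduct.rightHom) hxn
    rw [map_pow, map_one] at h2
    have h3 : x.right ^ n = 1 := h2
    have h4 := congrArg Multiplicative.toAdd h3
    rw [toAdd_pow, toAdd_one, nsmul_eq_mul, mul_eq_zero] at h4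
    rcases h4 with h5 | h5
    · exfalso; simp at h5; omega
    · exact h5
  have h2 : x = SemidirectProduct.inl x.left := by
    conv_lhs => rw [← SemidirectProduct.inl_left_mul_inr_right x]
    rw [h1, map_one, mul_one]
  rw [h2, ← map_pow, ← map_one SemidirectProduct.inl] at hxn
  have h3 := SemidirectProduct.inl_injective hxn
  have h4 : x.left = 1 := by
    have := pow_left_injective (M := FreeGroup Bool) (n := n) (by omega)
    apply this
    simpa using h3
  rw [h2, h4, map_one]

/-- the homomorphism -/
def piT : P →* Tf := liftP 1 1 zT uT (by rw [relT]; simp)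

@[simp] theorem piT_ps : piT ps = 1 := by simp [piT]
@[simp] theorem piT_pt : piT pt = 1 := by simp [piT]
@[simp] theorem piT_pz : piT pz = zT := by simp [piT]
@[simp] theorem piT_pu : piT pu = uT := by simp [piT]

/-- the index set -/
abbrev IT : Type := Tf ⊕ Tf

open Classical in
/-- auxiliary function -/
noncomputable def singleT (i : IT) : IT → Multiplicative ℤ :=
  fun j => if j = i then Multiplicative.ofAdd 1 else 1

theorem relET : (SemidirectProduct.inl (singleT (Sum.inl 1)) : Ext Tf IT) *
    (SemidirectProduct.inl (singleT (Sum.inr 1)) : Ext Tf IT) *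
    (SemidirectProduct.inl (singleT (Sum.inl 1)) : Ext Tf IT)⁻¹ =
    rel (SemidirectProduct.inr zT) (SemidirectProduct.inr uT) *
      SemidirectProduct.inl (singleT (Sum.inr 1)) := by
  rw [← map_rel, relT, map_one, one_mul, ← map_mul, ← map_inv, ← map_mul, mul_comm
    (singleT (Sum.inl 1)), mul_inv_cancel_right]

/-- the homomorphism to the extension -/
noncomputable def PsiT : P →* Ext Tf IT :=
  liftP (SemidirectProduct.inl (singleT (Sum.inl 1)))
    (SemidirectProduct.inl (singleT (Sum.inr 1))) (SemidirectProduct.inr zT)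
    (SemidirectProduct.inr uT) relET

theorem PsiT_right (g : P) : (PsiT g).right = piT g := by
  have : SemidirectProduct.rightHom.comp PsiT = piT := by
    apply hom_ext
    · simp [PsiT]
    · simp [PsiT]
    · simp only [MonoidHom.comp_apply, PsiT, liftP_pz, piT]; rfl
    · simp only [MonoidHom.comp_apply, PsiT, liftP_pu, piT]; rfl
  exact DFunLike.congr_fun this g

/-- generators of the kernel -/
def genT : Bool → P := fun b => cond b ps pt
/-- their positions -/
def idxT : Bool → IT := fun b => cond b (Sum.inl 1) (Sum.inr 1)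

theorem genT_ker (j : Bool) : genT j ∈ piT.ker := by
  rw [MonoidHom.mem_ker]
  cases j
  · exact piT_pt
  · exact piT_ps

/-- classes -/
noncomputable def eT : IT → Abelianization piT.ker
  | Sum.inl γ => cls piT (Function.invFun piT γ) (genT true) (genT_ker true)
  | Sum.inr γ => cls piT (Function.invFun piT γ) (genT false) (genT_ker false)

theorem hclsT (j : Bool) (g : P) :
    cls piT g (genT j) (genT_ker j) = eT (piT g • idxT j) := by
  have hs : piT (Function.invFun piT (piT g)) = piT g := Function.invFun_eq ⟨g, rfl⟩
  cases j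
  · show cls piT g (genT false) (genT_ker false) = eT (Sum.inr (piT g • 1))
    rw [smul_eq_mul, mul_one]
    exact cls_congr _ _ _ _ _ hs.symm
  · show cls piT g (genT true) (genT_ker true) = eT (Sum.inl (piT g • 1))
    rw [smul_eq_mul, mul_one]
    exact cls_congr _ _ _ _ _ hs.symm

/-- the map back from the free part -/
def backK {R : Type*} [Group R] (z u : R) : FreeGroup Bool →* R :=
  FreeGroup.lift (fun b => cond b (z * u * z⁻¹) u)

theorem backK_phi {R : Type*} [Group R] (z u : R) (h : rel z u = 1) (k : FreeGroup Bool) :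
    backK z u (phi k) = z * backK z u k * z⁻¹ := by
  have key : (backK z u).comp phi.toMonoidHom =
      (MulAut.conj z).toMonoidHom.comp (backK z u) := by
    apply FreeGroup.ext_hom
    intro b
    cases b
    · show backK z u (phi fu) = z * backK z u fu * z⁻¹
      rw [phi_fu]
      simp [backK, fu, fv, FreeGroup.lift_apply_of]
    · show backK z u (phi fv) = z * backK z u fv * z⁻¹
      rw [phi_fv]
      simp only [backK, fu, fv, map_mul, map_inv, FreeGroup.lift_apply_of, cond_true, cond_false]
      unfold rel at h
      have h2 : u⁻¹ * (z * u * z⁻¹) = (u⁻¹ * 1 * u) * (u⁻¹ * (z * u * z⁻¹)) := by group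
      rw [h2, ← h]
      group
  exact DFunLike.congr_fun key k

theorem backK_zpow {R : Type*} [Group R] (z u : R) (h : rel z u = 1) (n : ℤ)
    (k : FreeGroup Bool) : backK z u ((phi ^ n) k) = z ^ n * backK z u k * (z ^ n)⁻¹ := by
  induction n using Int.induction_on generalizing k with
  | zero => simp
  | succ n ih =>
    rw [zpow_add_one, MulAut.mul_apply, ih, backK_phi z u h, zpow_add_one]
    group
  | pred n ih =>
    rw [zpow_sub_one, MulAut.mul_apply, ih]
    have : backK z u (phi⁻¹ k) = z⁻¹ * backK z u k * z := by
      have h1 := backK_phi z u h (phi⁻¹ k)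
      rw [MulAut.apply_inv_self] at h1
      rw [h1]; group
    rw [this, zpow_sub_one]
    group

/-- homomorphisms out of the trefoil group -/
def backT {R : Type*} [Group R] (z u : R) (h : rel z u = 1) : Tf →* R :=
  SemidirectProduct.lift (backK z u) (zpowersHom R z) (by
    intro g
    ext k
    show backK z u ((phi ^ (Multiplicative.toAdd g)) _) = z ^ (Multiplicative.toAdd g) *
      backK z u _ * (z ^ (Multiplicative.toAdd g))⁻¹
    exact backK_zpow z u h _ _)

theorem hNT : piT.ker ≤ Subgroup.normalClosure (Set.range genT) := by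
  set C := Subgroup.normalClosure (Set.range genT) with hC
  have hgenC : ∀ j, genT j ∈ C := fun j => Subgroup.subset_normalClosure ⟨j, rfl⟩
  let q : P →* P ⧸ C := QuotientGroup.mk' C
  have hs : q ps = 1 := (QuotientGroup.eq_one_iff _).mpr (hgenC true)
  have ht : q pt = 1 := (QuotientGroup.eq_one_iff _).mpr (hgenC false)
  have hr : rel (q pz) (q pu) = 1 := by
    have := congrArg q rel_P
    rw [map_mul, map_mul, map_mul, map_rel, map_inv, hs, ht] at this
    simpa using this.symm
  have key : (backT (q pz) (q pu) hr).comp piT = q := by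
    apply hom_ext
    · simp [hs]
    · simp [ht]
    · simp [backT, zT]
    · simp [backT, uT, backK, fu, FreeGroup.lift_apply_of]
  intro x hx
  have h1 : q x = 1 := by
    rw [← key, MonoidHom.comp_apply, hx, map_one]
  exact (QuotientGroup.eq_one_iff x).mp h1

/-- the abelianization of the kernel is torsion-free -/
theorem ker_torsionFree (x : Abelianization piT.ker) (hx : IsOfFinOrder x) : x = 1 := by
  classical
  refine ab_torsionFree piT PsiT PsiT_right eT (fun _ => 1) (fun _ => one_ne_zero) Bool genT
    genT_ker idxT ?_ hclsT (fun _ _ => rfl) hNT x hx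
  intro j i
  cases j
  · show (PsiT pt).left i = if i = Sum.inr 1 then _ else _
    simp only [PsiT, liftP_pt, SemidirectProduct.left_inl, singleT]
  · show (PsiT ps).left i = if i = Sum.inl 1 then _ else _
    simp only [PsiT, liftP_ps, SemidirectProduct.left_inl, singleT]

/-- the quotient is torsion-free -/
theorem quot_torsionFree (x : P ⧸ piT.ker) (hx : IsOfFinOrder x) : x = 1 := by
  have h1 : IsOfFinOrder (QuotientGroup.kerLift piT x) :=
    MonoidHom.isOfFinOrder _ hx
  have h2 := Tf_torsionFree _ h1
  apply QuotientGroup.kerLift_injective piT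
  rw [h2, map_one]

/-- equal squares -/
theorem squares {R : Type*} [Group R] (z u : R) (hr : rel z u = 1) :
    (z * u * z * z) ^ 2 = (z * u * z * z * u) ^ 2 := by
  have h1 : u * z * z * u = z * u * z := by
    unfold rel at hr
    have : u * z * z * u * z⁻¹ * u⁻¹ * z⁻¹ = (u * z * z * u) * (z * u * z)⁻¹ := by group
    rw [this] at hr
    exact mul_inv_eq_one.mp hr
  have h2 : u * (z * u * z * z) * u = z * u * z * z := by
    calc u * (z * u * z * z) * u = u * z * (u * z * z * u) := by simp only [mul_assoc]
      _ = u * z * (z * u * z) := by rw [h1]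
      _ = (u * z * z * u) * z := by simp only [mul_assoc]
      _ = z * u * z * z := by rw [h1]
  calc (z * u * z * z) ^ 2 = (z * u * z * z) * (z * u * z * z) := sq _
    _ = (z * u * z * z) * (u * (z * u * z * z) * u) := by rw [h2]
    _ = (z * u * z * z * u) ^ 2 := by rw [sq]; simp only [mul_assoc]

/-- the relation holds as soon as the kernel becomes commutative -/
theorem rel_quot {R : Type*} [Group R] (q : P →* R)
    (hq : ∀ a b : P, a ∈ piT.ker → b ∈ piT.ker → q a * q b = q b * q a) :
    rel (q pz) (q pu) = 1 := by
  have h1 := congrArg q rel_P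
  rw [map_mul, map_mul, map_mul, map_rel, map_inv, hq ps pt piT_ps piT_pt, mul_assoc,
    mul_inv_cancel, mul_one] at h1
  exact (mul_eq_right.mp h1.symm)

theorem uT_ne_one : uT ≠ 1 := by
  intro h
  rw [uT, ← map_one SemidirectProduct.inl] at h
  exact FreeGroup.of_ne_one false (SemidirectProduct.inl_injective h)

end Pool.Agent.Helper867.PF.Roots
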