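import Mathlib
import Pool.Agent.Helper867.PF.Grp
import Pool.Agent.Helper867.PF.Frame

set_option autoImplicit false

/-!
The kernel `N` of a homomorphism from `P` to the symmetric group of degree three has
torsion-free abelianization, while `P / [N, N]` has an element of order three.
-/

namespace Pool.Agent.Helper867.PF.Tors

/-- the symmetric group -/
abbrev S3 : Type := Equiv.Perm (Fin 3)

/-- image of `z` -/
def zg : S3 := Equiv.swap 0 1
/-- image of `u` -/
def ug : S3 := Equiv.swap 1 2 * Equiv.swap 0 1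

theorem rel_g : (1 : S3) * 1 * 1⁻¹ = rel zg ug * 1 := by decide

/-- the homomorphism to the symmetric group -/
def pi3 : P →* S3 := liftP 1 1 zg ug rel_g

@[simp] theorem pi3_ps : pi3 ps = 1 := by simp [pi3]
@[simp] theorem pi3_pt : pi3 pt = 1 := by simp [pi3]
@[simp] theorem pi3_pz : pi3 pz = zg := by simp [pi3]
@[simp] theorem pi3_pu : pi3 pu = ug := by simp [pi3]

theorem pi3_surj (γ : S3) : ∃ g : P, pi3 g = γ := by
  have : ∀ γ : S3, ∃ (a : Fin 2) (b : Fin 3), γ = zg ^ a.1 * ug ^ b.1 := by decide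
  obtain ⟨a, b, h⟩ := this γ
  exact ⟨pz ^ a.1 * pu ^ b.1, by simp [h]⟩

/-- the index set -/
abbrev I3 : Type := Fin 3 ⊕ (S3 ⊕ S3)

/-- auxiliary function -/
def single3 (i : I3) (c : ℤ) : I3 → Multiplicative ℤ :=
  fun j => if j = i then Multiplicative.ofAdd c else 1

/-- auxiliary element -/
def zE : Ext S3 I3 := ⟨single3 (Sum.inl 2) 1, zg⟩
/-- auxiliary element -/
def sE : Ext S3 I3 := ⟨single3 (Sum.inl 0) 1, Equiv.swap 1 2⟩

theorem inl_smul (γ : S3) (k : Fin 3) : γ • (Sum.inl k : I3) = Sum.inl (γ k) := rfl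
theorem inr_smul (γ : S3) (k : S3 ⊕ S3) : γ • (Sum.inr k : I3) = Sum.inr (γ • k) := rfl

theorem braid : sE * zE * sE = zE * sE * zE := by
  apply SemidirectProduct.ext
  · funext i
    simp only [SemidirectProduct.mul_left, SemidirectProduct.mul_right, Pi.mul_apply,
      permAct_apply, zE, sE, single3]
    rcases i with k | k
    · simp only [inl_smul, Sum.inl.injEq]
      revert k
      decide
    · simp only [inr_smul, reduceCtorEq, if_false]
  · decide

theorem rel_braid {G : Type*} [Group G] (σ z : G) (h : σ * z * σ = z * σ * z) :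
    rel z (σ * z⁻¹) = 1 := by
  unfold rel
  have : σ * z⁻¹ * z * z * (σ * z⁻¹) * z⁻¹ * (σ * z⁻¹)⁻¹ * z⁻¹ =
      (σ * z * σ) * (z * σ * z)⁻¹ := by
    group
  rw [this, h, mul_inv_cancel]

theorem relE : (SemidirectProduct.inl (single3 (Sum.inr (Sum.inl 1)) 1) : Ext S3 I3) *
    (SemidirectProduct.inl (single3 (Sum.inr (Sum.inr 1)) 1) : Ext S3 I3) *
    (SemidirectProduct.inl (single3 (Sum.inr (Sum.inl 1)) 1) : Ext S3 I3)⁻¹ =
    rel zE (sE * zE⁻¹) * SemidirectProduct.inl (single3 (Sum.inr (Sum.inr 1)) 1) := by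
  rw [rel_braid _ _ braid, one_mul, ← map_mul, ← map_inv, ← map_mul, mul_comm
    (single3 (Sum.inr (Sum.inl 1)) 1), mul_inv_cancel_right]

/-- the homomorphism to the extension -/
def Psi3 : P →* Ext S3 I3 :=
  liftP (SemidirectProduct.inl (single3 (Sum.inr (Sum.inl 1)) 1))
    (SemidirectProduct.inl (single3 (Sum.inr (Sum.inr 1)) 1)) zE (sE * zE⁻¹) relE

theorem Psi3_right (g : P) : (Psi3 g).right = pi3 g := by
  have : SemidirectProduct.rightHom.comp Psi3 = pi3 := by
    apply hom_ext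
    · simp [Psi3]
    · simp [Psi3]
    · simp only [MonoidHom.comp_apply, Psi3, liftP_pz, pi3]; rfl
    · simp only [MonoidHom.comp_apply, Psi3, liftP_pu, pi3]; rfl
  exact DFunLike.congr_fun this g

/-- generators of the kernel -/
def gen3 : Fin 3 → P := ![pz * pz, ps, pt]
/-- their positions -/
def idx3 : Fin 3 → I3 := ![Sum.inl 2, Sum.inr (Sum.inl 1), Sum.inr (Sum.inr 1)]
/-- weights -/
def m3 : I3 → ℤ
  | Sum.inl _ => 2
  | Sum.inr _ => 1

theorem gen3_ker (j : Fin 3) : gen3 j ∈ pi3.ker := by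
  rw [MonoidHom.mem_ker]
  fin_cases j
  · show pi3 (pz * pz) = 1
    rw [map_mul, pi3_pz]; decide
  · exact pi3_ps
  · exact pi3_pt

theorem hgen3 (j : Fin 3) (i : I3) :
    (Psi3 (gen3 j)).left i = if i = idx3 j then Multiplicative.ofAdd (m3 i) else 1 := by
  fin_cases j
  · show (Psi3 (pz * pz)).left i = if i = Sum.inl 2 then _ else _
    rw [map_mul]
    simp only [Psi3, liftP_pz]
    simp only [SemidirectProduct.mul_left, Pi.mul_apply, permAct_apply, zE, single3]
    rcases i with k | k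
    · simp only [inl_smul, Sum.inl.injEq, m3]
      revert k
      decide
    · simp only [inr_smul, reduceCtorEq, if_false, mul_one]
  · show (Psi3 ps).left i = if i = Sum.inr (Sum.inl 1) then _ else _
    simp only [Psi3, liftP_ps, SemidirectProduct.left_inl, single3]
    by_cases h : i = Sum.inr (Sum.inl 1)
    · rw [if_pos h, if_pos h, h]; rfl
    · rw [if_neg h, if_neg h]
  · show (Psi3 pt).left i = if i = Sum.inr (Sum.inr 1) then _ else _
    simp only [Psi3, liftP_pt, SemidirectProduct.left_inl, single3]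
    by_cases h : i = Sum.inr (Sum.inr 1)
    · rw [if_pos h, if_pos h, h]; rfl
    · rw [if_neg h, if_neg h]

/-- a section -/
noncomputable def sec3 (γ : S3) : P := (pi3_surj γ).choose

theorem sec3_spec (γ : S3) : pi3 (sec3 γ) = γ := (pi3_surj γ).choose_spec

/-- classes -/
noncomputable def e3 : I3 → Abelianization pi3.ker
  | Sum.inl k => cls pi3 (sec3 (Equiv.swap 2 k)) (gen3 0) (gen3_ker 0)
  | Sum.inr (Sum.inl γ) => cls pi3 (sec3 γ) (gen3 1) (gen3_ker 1)
  | Sum.inr (Sum.inr γ) => cls pi3 (sec3 γ) (gen3 2) (gen3_ker 2)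

theorem cls_z (g h : P) (hgh : pi3 g 2 = pi3 h 2) :
    cls pi3 g (gen3 0) (gen3_ker 0) = cls pi3 h (gen3 0) (gen3_ker 0) := by
  have h1 : ((pi3 h)⁻¹ * pi3 g) 2 = 2 := by
    rw [Equiv.Perm.mul_apply, hgh]; exact Equiv.symm_apply_apply _ _
  have h2 : ∀ γ : S3, γ 2 = 2 → γ = 1 ∨ γ = zg := by decide
  rcases h2 _ h1 with h3 | h3
  · apply cls_congr
    rw [inv_mul_eq_one] at h3
    exact h3.symm
  · have h4 : pi3 g = pi3 (h * pz) := by
      rw [map_mul, pi3_pz, ← h3]; group
    rw [cls_congr pi3 g (h * pz) _ _ h4]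
    unfold cls
    congr 1
    apply Subtype.ext
    show h * pz * (pz * pz) * (h * pz)⁻¹ = h * (pz * pz) * h⁻¹
    group

theorem hcls3 (j : Fin 3) (g : P) :
    cls pi3 g (gen3 j) (gen3_ker j) = e3 (pi3 g • idx3 j) := by
  fin_cases j
  · show cls pi3 g (gen3 0) (gen3_ker 0) = e3 (pi3 g • Sum.inl 2)
    rw [inl_smul]
    show _ = cls pi3 (sec3 (Equiv.swap 2 (pi3 g 2))) (gen3 0) (gen3_ker 0)
    apply cls_z
    rw [sec3_spec, Equiv.swap_apply_left]
  · show cls pi3 g (gen3 1) (gen3_ker 1) = e3 (Sum.inr (Sum.inl (pi3 g • 1)))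
    rw [smul_eq_mul, mul_one]
    exact cls_congr _ _ _ _ _ (sec3_spec _).symm
  · show cls pi3 g (gen3 2) (gen3_ker 2) = e3 (Sum.inr (Sum.inr (pi3 g • 1)))
    rw [smul_eq_mul, mul_one]
    exact cls_congr _ _ _ _ _ (sec3_spec _).symm

theorem hmi3 (j : Fin 3) (γ : S3) : m3 (γ • idx3 j) = m3 (idx3 j) := by
  fin_cases j <;> rfl

theorem hm3 (i : I3) : m3 i ≠ 0 := by
  rcases i with k | k
  · show (2 : ℤ) ≠ 0; norm_num
  · show (1 : ℤ) ≠ 0; norm_num

section Quot

/-- consequences of the relation in a quotient where `z` has order two -/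
theorem quot_facts {R : Type*} [Group R] (z u : R) (hz : z * z = 1) (hr : rel z u = 1) :
    u ^ 3 = 1 ∧ u * z = z * u⁻¹ := by
  have hzi : z⁻¹ = z := inv_eq_of_mul_eq_one_left hz
  have h1 : u * u = z * u * z := by
    unfold rel at hr
    rw [hzi] at hr
    have h2 : u * z * z * u * z * u⁻¹ * z = (u * (z * z) * u) * (z * u⁻¹ * z) := by group
    rw [h2, hz, mul_one] at hr
    have h3 : z * u⁻¹ * z = (z * u * z)⁻¹ := by
      rw [mul_inv_rev, mul_inv_rev, hzi]; group
    rw [h3] at hr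
    exact mul_inv_eq_one.mp hr
  have h2 : u = (z * u * z) * (z * u * z) := by
    have h4 : (z * u * z) * (z * u * z) = z * (u * (z * z) * u) * z := by group
    rw [h4, hz, mul_one, h1]
    have h5 : z * (z * u * z) * z = (z * z) * u * (z * z) := by group
    rw [h5, hz]; group
  have h3 : u ^ 3 = 1 := by
    rw [← h1] at h2
    have h6 : u * u ^ 3 = u * 1 := by
      rw [mul_one]
      calc u * u ^ 3 = u * u * (u * u) := by simp only [pow_succ, pow_zero, one_mul, mul_assoc]
        _ = u := h2.symm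
    exact mul_left_cancel h6
  refine ⟨h3, ?_⟩
  have h7 : u⁻¹ = u * u := by
    rw [inv_eq_iff_mul_eq_one]
    calc u * (u * u) = u ^ 3 := by simp only [pow_succ, pow_zero, one_mul, mul_assoc]
      _ = 1 := h3
  rw [h7, h1]
  calc u * z = (z * z) * u * z := by rw [hz, one_mul]
    _ = z * (z * u * z) := by group

theorem comm_step {R : Type*} [Group R] (z u : R) (hz : z * z = 1) (hc : u * z = z * u⁻¹)
    (c b : ℤ) : ∃ b' : ℤ, u ^ b * z ^ c = z ^ c * u ^ b' := by
  have hzi : z⁻¹ = z := inv_eq_of_mul_eq_one_left hz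
  have h1 : ∀ k : ℤ, u ^ k * z = z * u ^ (-k) := by
    intro k
    have : SemiconjBy z u⁻¹ u := by
      show z * u⁻¹ = u * z
      exact hc.symm
    have h2 := this.zpow_right k
    rw [inv_zpow, ← zpow_neg] at h2
    exact h2.eq.symm
  induction c using Int.induction_on with
  | zero => exact ⟨b, by simp⟩
  | succ c ih =>
    obtain ⟨b', hb'⟩ := ih
    refine ⟨-b', ?_⟩
    rw [zpow_add_one, ← mul_assoc, hb', mul_assoc, h1, ← mul_assoc]
  | pred c ih =>
    obtain ⟨b', hb'⟩ := ih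
    refine ⟨-b', ?_⟩
    rw [zpow_sub_one, hzi, ← mul_assoc, hb', mul_assoc, h1, ← mul_assoc]

end Quot

theorem hN3 : pi3.ker ≤ Subgroup.normalClosure (Set.range gen3) := by
  set C := Subgroup.normalClosure (Set.range gen3) with hC
  have hCle : C ≤ pi3.ker := by
    apply Subgroup.normalClosure_le_normal
    rintro _ ⟨j, rfl⟩
    exact gen3_ker j
  have hgenC : ∀ j, gen3 j ∈ C := fun j => Subgroup.subset_normalClosure ⟨j, rfl⟩
  let q : P →* P ⧸ C := QuotientGroup.mk' C
  have hz : q pz * q pz = 1 := by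
    rw [← map_mul]; exact (QuotientGroup.eq_one_iff _).mpr (hgenC 0)
  have hs : q ps = 1 := (QuotientGroup.eq_one_iff _).mpr (hgenC 1)
  have ht : q pt = 1 := (QuotientGroup.eq_one_iff _).mpr (hgenC 2)
  have hr : rel (q pz) (q pu) = 1 := by
    have := congrArg q rel_P
    rw [map_mul, map_mul, map_mul, map_rel, map_inv, hs, ht] at this
    simpa using this.symm
  obtain ⟨hu3, hc⟩ := quot_facts _ _ hz hr
  have hform : ∀ x : P, ∃ a b : ℤ, q x = q pz ^ a * q pu ^ b := by
    intro x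
    have hx : x ∈ Subgroup.closure ({ps, pt, pz, pu} : Set P) := by
      rw [closure_eq_top]; trivial
    induction hx using Subgroup.closure_induction with
    | mem x hx =>
      simp only [Set.mem_insert_iff, Set.mem_singleton_iff] at hx
      rcases hx with rfl | rfl | rfl | rfl
      · exact ⟨0, 0, by simp [hs]⟩
      · exact ⟨0, 0, by simp [ht]⟩
      · exact ⟨1, 0, by simp⟩
      · exact ⟨0, 1, by simp⟩
    | one => exact ⟨0, 0, by simp⟩
    | mul x y _ _ ihx ihy =>
      obtain ⟨a, b, h1⟩ := ihx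
      obtain ⟨c, d, h2⟩ := ihy
      obtain ⟨b', h3⟩ := comm_step _ _ hz hc c b
      refine ⟨a + c, b' + d, ?_⟩
      rw [map_mul, h1, h2, zpow_add, zpow_add]
      calc q pz ^ a * q pu ^ b * (q pz ^ c * q pu ^ d)
          = q pz ^ a * (q pu ^ b * q pz ^ c) * q pu ^ d := by group
        _ = q pz ^ a * (q pz ^ c * q pu ^ b') * q pu ^ d := by rw [h3]
        _ = _ := by group
    | inv x _ ihx =>
      obtain ⟨a, b, h1⟩ := ihx
      obtain ⟨b', h3⟩ := comm_step _ _ hz hc (-a) (-b)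
      refine ⟨-a, b', ?_⟩
      rw [map_inv, h1, mul_inv_rev, ← zpow_neg, ← zpow_neg, h3]
  intro x hx
  obtain ⟨a, b, hab⟩ := hform x
  have h1 : (pz ^ a * pu ^ b)⁻¹ * x ∈ C := by
    rw [← QuotientGroup.eq]
    show q (pz ^ a * pu ^ b) = q x
    rw [hab, map_mul, map_zpow, map_zpow]
  have h2 : pi3 (pz ^ a * pu ^ b) = 1 := by
    have h3 : pi3 ((pz ^ a * pu ^ b)⁻¹ * x) = 1 := hCle h1
    have h4 : pi3 x = 1 := hx
    rw [map_mul, h4, mul_one, map_inv, inv_eq_one] at h3
    exact h3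
  rw [map_mul, map_zpow, map_zpow, pi3_pz, pi3_pu] at h2
  have hsz : Equiv.Perm.sign zg = -1 := by decide
  have hsu : Equiv.Perm.sign ug = 1 := by decide
  have h5 := congrArg Equiv.Perm.sign h2
  rw [map_mul, map_zpow, map_zpow, hsz, hsu, one_zpow, mul_one, map_one] at h5
  have h6 : Even a := by
    by_contra ho
    rw [Int.not_even_iff_odd] at ho
    rw [Odd.neg_one_zpow ho] at h5
    exact absurd h5 (by decide)
  obtain ⟨a', ha'⟩ := h6
  have hzz : zg * zg = 1 := by decide
  have h7 : zg ^ a = 1 := by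
    rw [ha', zpow_add, ← (Commute.refl zg).mul_zpow, hzz, one_zpow]
  rw [h7, one_mul] at h2
  have ho3 : orderOf ug = 3 := by
    have : Fact (Nat.Prime 3) := ⟨Nat.prime_three⟩
    exact orderOf_eq_prime (by decide) (by decide)
  rw [← orderOf_dvd_iff_zpow_eq_one, ho3] at h2
  obtain ⟨b', hb'⟩ := h2
  have h8 : q pz ^ a = 1 := by
    rw [ha', zpow_add, ← (Commute.refl (q pz)).mul_zpow, hz, one_zpow]
  have h9 : q pu ^ b = 1 := by
    rw [hb', Nat.cast_ofNat, zpow_mul]
    have : q pu ^ (3 : ℤ) = 1 := by exact_mod_cast hu3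
    rw [this, one_zpow]
  rw [h8, h9, mul_one] at hab
  exact (QuotientGroup.eq_one_iff x).mp hab

/-- the abelianization of the kernel is torsion-free -/
theorem ker_torsionFree (x : Abelianization pi3.ker) (hx : IsOfFinOrder x) : x = 1 :=
  ab_torsionFree pi3 Psi3 Psi3_right e3 m3 hm3 (Fin 3) gen3 gen3_ker idx3 hgen3 hcls3 hmi3 hN3 x hx

/-- the cube of `u` dies in any quotient in which the kernel becomes commutative -/
theorem cube_eq_one {R : Type*} [Group R] (q : P →* R)
    (hq : ∀ a b : P, a ∈ pi3.ker → b ∈ pi3.ker → q a * q b = q b * q a) :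
    q pu ^ 3 = 1 := by
  set z := q pz with hz
  set u := q pu with hu
  have hr : rel z u = 1 := by
    have h1 := congrArg q rel_P
    rw [map_mul, map_mul, map_mul, map_rel, map_inv, hq ps pt pi3_ps pi3_pt, mul_assoc,
      mul_inv_cancel, mul_one] at h1
    exact (mul_eq_right.mp h1.symm)
  have h1 : u * z * z * u = z * u * z := by
    unfold rel at hr
    have : u * z * z * u * z⁻¹ * u⁻¹ * z⁻¹ = (u * z * z * u) * (z * u * z)⁻¹ := by group
    rw [this] at hr
    exact mul_inv_eq_one.mp hr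
  -- m = z z, v = z u z⁻¹
  have hv : z * u * z⁻¹ = u * (z * z) * u * (z * z)⁻¹ := by
    have : u * (z * z) * u * (z * z)⁻¹ = (u * z * z * u) * (z * z)⁻¹ := by group
    rw [this, h1]; group
  have hv2 : (z * u * z⁻¹) * (z * z) * (z * u * z⁻¹) = (z * z) * u := by
    have : (z * u * z⁻¹) * (z * z) * (z * u * z⁻¹) = z * (u * z * z * u) * z⁻¹ := by group
    rw [this, h1]; group
  rw [hv] at hv2
  have h3 : u * (z * z) * u * u * (z * z) * u = (z * z) * u * (z * z) := by
    have e1 : u * (z * z) * u * (z * z)⁻¹ * (z * z) * (u * (z * z) * u * (z * z)⁻¹) =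
        (u * (z * z) * u * u * (z * z) * u) * (z * z)⁻¹ := by group
    rw [e1] at hv2
    exact mul_inv_eq_iff_eq_mul.mp hv2
  have hzz : pi3 (pz * pz) = 1 := by rw [map_mul, pi3_pz]; decide
  have hk1 : pz * pz ∈ pi3.ker := hzz
  have hk2 : pu * (pz * pz) * pu⁻¹ ∈ pi3.ker := (MonoidHom.normal_ker pi3).conj_mem _ hk1 _
  have hk3 : pu ^ 3 ∈ pi3.ker := by
    rw [MonoidHom.mem_ker, map_pow, pi3_pu]; decide
  have c1 := hq _ _ hk2 hk1
  have c2 := hq _ _ hk3 hk1
  simp only [map_mul, map_inv, map_pow] at c1 c2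
  rw [← hz, ← hu] at c1 c2
  have h4 : (u * (z * z) * u⁻¹) * ((z * z) * u ^ 3) = (u * (z * z) * u⁻¹) * (z * z) := by
    rw [← c2, c1]
    have e2 : u * (z * z) * u⁻¹ * (u ^ 3 * (z * z)) = (u * (z * z) * u * u * (z * z) * u) * u⁻¹ := by
      have e3 : u⁻¹ * u ^ 3 = u * u := by
        rw [inv_mul_eq_iff_eq_mul]; simp only [pow_succ, pow_zero, one_mul, mul_assoc]
      calc u * (z * z) * u⁻¹ * (u ^ 3 * (z * z)) = u * (z * z) * (u⁻¹ * u ^ 3) * (z * z) := by
            simp only [mul_assoc]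
        _ = u * (z * z) * (u * u) * (z * z) := by rw [e3]
        _ = _ := by simp only [mul_assoc, mul_inv_cancel, mul_one]
    rw [e2, h3]; group
  have h5 := mul_left_cancel h4
  exact mul_eq_left.mp h5

end Pool.Agent.Helper867.PF.Tors
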